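import Pool.Agent.Helper96.BT.Defs
import Pool.Agent.Helper4.PH.Fix
import Pool.Agent.Helper18.PH.P1

/-!
# BT, G4: the average over the symbols number `0`
-/

set_option autoImplicit false

namespace Pool.Agent.Helper78.BT.G4

open Finset Pool.Agent.Helper19.NF Pool.Agent.Helper74.NW Pool.Agent.Helper96.BT
open Pool.Agent.Helper74.NE (fine fine_apply)
open Pool.Agent.Helper99.NQ (pos)
open Pool.Agent.Helper96.PH (Det CB opn)
open Pool.Agent.Helper74.NS (Expands)

section put

variable {n D m S : ℕ} {F B W Z : Type} [Field F] [AddCommGroup B] [AddCommGroup W]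

open Classical in
/-- The input with the symbols `γ` at the places `0`. -/
noncomputable def put (γ : B → F) (I : B × W → F) : B × W → F := fun z => if z.2 = 0 then γ z.1 else I z

theorem put_zero (γ : B → F) (I : B × W → F) (b : B) : put γ I (b, 0) = γ b := by
  unfold put
  rw [if_pos rfl]

theorem put_put (γ γ' : B → F) (I : B × W → F) : put γ (put γ' I) = put γ I := by
  funext z
  unfold put
  split_ifs <;> rfl

theorem put_self (I : B × W → F) : put (fun b => I (b, 0)) I = I := by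
  funext z
  unfold put
  split_ifs with h
  · rw [← h]
  · rfl

open Classical in
theorem run_of_fixz {P : NProg (B × W) F Z S} {γ : B → F} {I : B × W → F} {s t : Fin S}
    {l : List (B × W)} (h : (fixz P γ).Run I s l t) : P.Run (put γ I) s l t := by
  induction h with
  | nil s => exact NProg.Run.nil s
  | cons s s' t c next l h1 h2 _ ih =>
    have h1' : (P.act s).map (fun t => (t.1, fun y => t.2 (if t.1.2 = 0 then γ t.1.1 else y))) id =
      Sum.inl (c, next) := h1
    rcases h3 : P.act s with ⟨c', next'⟩ | z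
    · rw [h3, Sum.map_inl, Sum.inl.injEq, Prod.mk.injEq] at h1'
      obtain ⟨h4, h5⟩ := h1'
      have h4 : c' = c := h4
      subst h4
      subst h5
      exact NProg.Run.cons s s' t c' next' l h3 h2 ih
    · rw [h3] at h1'
      simp at h1'

open Classical in
theorem fixz_of_run {P : NProg (B × W) F Z S} {γ : B → F} {I J : B × W → F} {s t : Fin S}
    {l : List (B × W)} (hJ : J = put γ I) (h : P.Run J s l t) : (fixz P γ).Run I s l t := by
  subst hJ
  induction h with
  | nil s => exact NProg.Run.nil s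
  | cons s s' t c next l h1 h2 _ ih =>
    refine NProg.Run.cons s s' t c (fun y => next (if c.2 = 0 then γ c.1 else y)) l ?_ h2 ih
    show (P.act s).map (fun t => (t.1, fun y => t.2 (if t.1.2 = 0 then γ t.1.1 else y))) id = _
    rw [h1]
    rfl

theorem runL_fixz {P : NProg (B × W) F Z S} {γ : B → F} {I : B × W → F} {L : List (Fin S × ℕ × Fin S)}
    {c : List (B × W)} : RunL (fixz P γ) I L c ↔ RunL P (put γ I) L c := by
  constructor
  · intro h
    induction h with
    | nil => exact RunL.nil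
    | cons s t k L c c' h1 h2 _ ih => exact RunL.cons s t k L c c' (run_of_fixz h1) h2 ih
  · intro h
    induction h with
    | nil => exact RunL.nil
    | cons s t k L c c' h1 h2 _ ih => exact RunL.cons s t k L c c' (fixz_of_run rfl h1) h2 ih

open Classical in
theorem det_fixz {P : NProg (B × W) F Z S} (hP : Det P) (γ : B → F) : Det (fixz P γ) := by
  intro s c next h x
  have h1' : (P.act s).map (fun t => (t.1, fun y => t.2 (if t.1.2 = 0 then γ t.1.1 else y))) id =
    Sum.inl (c, next) := h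
  rcases h3 : P.act s with ⟨c', next'⟩ | z
  · rw [h3, Sum.map_inl, Sum.inl.injEq, Prod.mk.injEq] at h1'
    obtain ⟨h4, h5⟩ := h1'
    subst h5
    exact hP s c' next' h3 _
  · rw [h3] at h1'
    simp at h1'

variable [Fintype B] [Fintype W]

theorem inC_fixz {P : NProg (B × W) F Z S} {γ : B → F} {I : B × W → F} {T : ℕ} {L : List (Fin S × ℕ × Fin S)}
    {Φ : List (B × W) → Prop} : InC (fixz P γ) T L Φ I ↔ InC P T L Φ (put γ I) := by
  unfold InC
  exact exists_congr fun c => and_congr_left fun _ => runL_fixz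

variable [Module F W]

theorem tab_put (enc : W →+ (Fin D × Fin m → B)) (γ : B → F) (I : B × W → F) : tab enc (put γ I) = tab enc I := by
  classical
  funext b
  unfold tab cont
  congr 1
  refine Finset.sum_congr rfl fun l _ => ?_
  by_cases h : l = 0
  · rw [h, smul_zero, smul_zero]
  · unfold put
    show (if l = 0 then γ b else I (b, l)) • l = _
    rw [if_neg h]

theorem out_put [NeZero m] (enc : W →+ (Fin D × Fin m → B)) (g : Fin D → Equiv.Perm (Fin n))
    (x0 : Fin n × Fin m → B) (m1 R : ℕ) (γ : B → F) (I : B × W → F) :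
    Pool.Agent.Helper96.BT.out enc g x0 m1 R (put γ I) = gout enc g x0 m1 R γ I := by
  unfold Pool.Agent.Helper96.BT.out gout
  refine Finset.sum_congr rfl fun v _ => ?_
  rw [put_zero, tab_put]

omit [Module F W] in
open Classical in
theorem card_put [Fintype F] (p : (B × W → F) → Prop) :
    ∑ γ : B → F, Nat.card {I : B × W → F // p (put γ I)} = Nat.card (B → F) * Nat.card {J // p J} := by
  rw [← Nat.card_sigma, ← Nat.card_prod,
    ← Nat.card_congr (Equiv.subtypeProdEquivSigmaSubtype (fun (γ : B → F) (I : B × W → F) => p (put γ I)))]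
  refine Nat.card_congr
    { toFun := fun x => (fun b => x.1.2 (b, 0), ⟨put x.1.1 x.1.2, x.2⟩)
      invFun := fun x => ⟨(fun b => x.2.1 (b, 0), put x.1 x.2.1), ?_⟩
      left_inv := ?_
      right_inv := ?_ }
  · show p (put (fun b => x.2.1 (b, 0)) (put x.1 x.2.1))
    rw [put_put, put_self]
    exact x.2.2
  · rintro ⟨⟨γ, I⟩, hI⟩
    refine Subtype.ext (Prod.ext ?_ ?_)
    · funext b
      exact put_zero γ I b
    · show put (fun b => I (b, 0)) (put γ I) = I
      rw [put_put, put_self]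
  · rintro ⟨β, J, hJ⟩
    refine Prod.ext ?_ (Subtype.ext ?_)
    · funext b
      exact put_zero β J b
    · show put (fun b => J (b, 0)) (put β J) = J
      rw [put_put, put_self]

end put

section main

variable {n D m S : ℕ} [NeZero m] {F B W : Type} [Field F] [Fintype F] [AddCommGroup B] [AddCommGroup W]
  [Module F W] [Fintype W] [Fintype B]

/-- The statement of G3. -/
def ClassB (enc : W →+ (Fin D × Fin m → B)) (F : Type) [Field F] [Fintype F] [Module F W] (n S : ℕ) : Prop :=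
  ∀ {m1 : ℕ} (_ : Mds enc (D * m1)) (_ : Mds enc (4 * D))
    (_ : m1 ≤ m) (P : NProg (B × W) F F S) (_ : Det P) (g : Fin D → Equiv.Perm (Fin n))
    (x0 : Fin n × Fin m → B) {h e T a R q q' d N : ℕ} (_ : Expands g a) (_ : 1 ≤ a) (_ : 0 < h)
    (_ : h + 1 ≤ Fintype.card W) (_ : e < m) (_ : q ≤ 2 ^ q') (_ : q' + d ≤ R) (r : ℝ)
    (_ : 0 < r) (_ : (T : ℝ) ≤ (1 - r) * Fintype.card (B × W))
    (_ : (m * h + e * Fintype.card W : ℝ) ≤ m * Fintype.card W * r / 2)
    (γ : B → F) {E : ℝ} (_ : 0 ≤ E) (_ : N + 2 * a ≤ n)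
    (_ : ∀ p, N ≤ p → CB γ (Fin p × Fin m1) 3 E) {Θ : Type} [Fintype Θ]
    (L : Θ → Fin 2 → List (Fin S × ℕ × Fin S)) (Φ : Θ → Fin 2 → List (B × W) → Prop) (y : Θ → F)
    (_ : ∀ t j, (L t j).length ≤ q) (_ : ∀ t j, ∀ p ∈ L t j, p.2.1 ≤ 2 ^ d),
    (Nat.card {I // CF (fine g) x0 R (tab enc I) ∧ ∃ t, y t = gout enc g x0 m1 R γ I ∧
        ∀ j, InC P T (L t j) (Φ t j) I} : ℝ) ≤
      (∑ t, (Nat.card {I // ∀ j, InC P T (L t j) (Φ t j) I} : ℝ)) / Fintype.card F +
        (errA n D m a R S q d e r ((h : ℝ) / Fintype.card W) + Fintype.card Θ * (D * m + 1) ^ (2 * n) *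
          (E * (1 / ((h : ℝ) / Fintype.card W)) ^ (4 * n))) * Nat.card (B × W → F)

/-- The statement of G5. -/
def NotCF (enc : W →+ (Fin D × Fin m → B)) (F : Type) [Field F] [Fintype F] [Module F W] (n : ℕ) : Prop :=
  ∀ (_ : Mds enc (2 * D)) (_ : 0 < D) (g : Fin D → Equiv.Perm (Fin n)) (x0 : Fin n × Fin m → B)
    (_ : Function.Injective x0) (R : ℕ),
    (Nat.card {I : B × W → F // ¬ CF (fine g) x0 R (tab enc I)} : ℝ) ≤
      ((R + 1) * (n * m)) ^ 2 / Fintype.card B * Nat.card (B × W → F)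

theorem errA_nonneg {a R q d e : ℕ} {r η : ℝ} : 0 ≤ errA n D m a R S q d e r η := by
  unfold errA
  have h1 : (0 : ℝ) ≤ (1 / η) ^ 2 * (4 * (m + 2) / (m * r) ^ 2) := by positivity
  positivity

/-- G4, from G3 and G5. -/
theorem main_bound_of (enc : W →+ (Fin D × Fin m → B)) (hB : ClassB enc F n S) (hN : NotCF enc F n)
    {m1 : ℕ} (hE : Mds enc (D * m1)) (hE4 : Mds enc (4 * D)) (hm1 : m1 ≤ m) (_hm0 : 0 < m1)
    (P : NProg (B × W) F F S) (hP : Det P) (hD : 0 < D) (g : Fin D → Equiv.Perm (Fin n)) (x0 : Fin n × Fin m → B)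
    (hx0 : Function.Injective x0)
    {h e T a R q q' d : ℕ} (hX : Expands g a) (ha : 1 ≤ a) (hh : 0 < h)
    (hL : h + 1 ≤ Fintype.card W) (he : e < m) (hq' : q ≤ 2 ^ q') (hR : q' + d ≤ R) (r : ℝ)
    (hr : 0 < r) (hrT : (T : ℝ) ≤ (1 - r) * Fintype.card (B × W))
    (hrh : (m * h + e * Fintype.card W : ℝ) ≤ m * Fintype.card W * r / 2) (hn : 2 * a ≤ n) {Θ : Type} [Fintype Θ]
    (L : Θ → Fin 2 → List (Fin S × ℕ × Fin S)) (Φ : Θ → Fin 2 → List (B × W) → Prop) (y : Θ → F)
    (hLq : ∀ t j, (L t j).length ≤ q) (hLd : ∀ t j, ∀ p ∈ L t j, p.2.1 ≤ 2 ^ d) :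
    (Nat.card {I // ∃ t, y t = Pool.Agent.Helper96.BT.out enc g x0 m1 R I ∧ ∀ j, InC P T (L t j) (Φ t j) I} : ℝ) ≤
      (∑ t, (Nat.card {I // ∀ j, InC P T (L t j) (Φ t j) I} : ℝ)) / Fintype.card F +
        (((R + 1) * (n * m)) ^ 2 / Fintype.card B +
          Fintype.card F * 2 ^ 4 / Real.sqrt (Fintype.card B) +
          errA n D m a R S q d e r ((h : ℝ) / Fintype.card W) + Fintype.card Θ * (D * m + 1) ^ (2 * n) *
            ((Fintype.card B : ℝ) ^ (-((n - 2 * a : ℕ) * m1 : ℝ) / 2 ^ 5) *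
              (1 / ((h : ℝ) / Fintype.card W)) ^ (4 * n))) * Nat.card (B × W → F) := by
  classical
  have hE2 : Mds enc (2 * D) := fun A hA y => hE4 A (hA.trans (by omega)) y
  have hk0 : 0 < Fintype.card B := Fintype.card_pos_iff.2 ⟨0⟩
  have hk : (1 : ℝ) ≤ Fintype.card B := by exact_mod_cast hk0
  have hkR : (0 : ℝ) < Fintype.card B := by linarith
  set E : ℝ := (Fintype.card B : ℝ) ^ (-((n - 2 * a : ℕ) * m1 : ℝ) / 2 ^ 5) with hEd
  set N : ℝ := (Nat.card (B × W → F) : ℝ) with hNd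
  set η : ℝ := (h : ℝ) / Fintype.card W with hη
  have hE0 : 0 ≤ E := Real.rpow_nonneg hkR.le _
  have hN0 : 0 ≤ N := Nat.cast_nonneg _
  have hη0 : 0 ≤ η := by positivity
  have hA0 : 0 ≤ errA n D m a R S q d e r η := errA_nonneg
  set K : ℝ := Fintype.card Θ * (D * m + 1) ^ (2 * n) * (E * (1 / η) ^ (4 * n)) with hK
  have hK0 : 0 ≤ K := by positivity
  have hbns := Pool.Agent.Helper18.PH.bns2 B F 3
  have h1 := Pool.Agent.Helper4.PH.avg
    (f := fun γ : B → F =>
      (Nat.card {I // ∃ t, y t = gout enc g x0 m1 R γ I ∧ ∀ j, InC (fixz P γ) T (L t j) (Φ t j) I} : ℝ) -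
        (∑ t, (Nat.card {I // ∀ j, InC (fixz P γ) T (L t j) (Φ t j) I} : ℝ)) / Fintype.card F)
    (bad := fun γ : B → F => ¬ ∀ (ι : Type) [Fintype ι],
        CB γ ι 3 ((Fintype.card B : ℝ) ^ (-(Fintype.card ι : ℝ) / 2 ^ (3 + 2)))) N
    (((R + 1) * (n * m)) ^ 2 / Fintype.card B + (errA n D m a R S q d e r η + K))
    (Fintype.card F * 2 ^ (3 + 1) / Real.sqrt (Fintype.card B)) hN0 (by positivity) (fun γ => ?_)
    (fun γ hγ => ?_) hbns
  · rw [Finset.sum_sub_distrib, ← Finset.sum_div] at h1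
    have h2 : ∀ γ : B → F, (Nat.card {I // ∃ t, y t = gout enc g x0 m1 R γ I ∧
        ∀ j, InC (fixz P γ) T (L t j) (Φ t j) I} : ℝ) =
        Nat.card {I : B × W → F // (fun J => ∃ t, y t = Pool.Agent.Helper96.BT.out enc g x0 m1 R J ∧
          ∀ j, InC P T (L t j) (Φ t j) J) (put γ I)} := by
      intro γ
      simp only [inC_fixz, out_put]
    have h3 : ∀ γ : B → F, (∑ t, (Nat.card {I // ∀ j, InC (fixz P γ) T (L t j) (Φ t j) I} : ℝ)) =
        ∑ t, (Nat.card {I : B × W → F // (fun J => ∀ j, InC P T (L t j) (Φ t j) J) (put γ I)} : ℝ) := by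
      intro γ
      simp only [inC_fixz]
    have h5 := card_put (F := F) (B := B) (W := W)
      (fun J => ∃ t, y t = Pool.Agent.Helper96.BT.out enc g x0 m1 R J ∧ ∀ j, InC P T (L t j) (Φ t j) J)
    have h6 : ∑ γ : B → F, ∑ t, (Nat.card {I : B × W → F //
        (fun J => ∀ j, InC P T (L t j) (Φ t j) J) (put γ I)} : ℝ) =
        Nat.card (B → F) * ∑ t, (Nat.card {I // ∀ j, InC P T (L t j) (Φ t j) I} : ℝ) := by
      rw [Finset.sum_comm, Finset.mul_sum]
      refine Finset.sum_congr rfl fun t _ => ?_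
      have h7 := card_put (F := F) (B := B) (W := W) (fun J => ∀ j, InC P T (L t j) (Φ t j) J)
      exact_mod_cast h7
    rw [Finset.sum_congr rfl fun γ _ => h2 γ, Finset.sum_congr rfl fun γ _ => h3 γ, ← Nat.cast_sum, h5, h6] at h1
    push_cast at h1
    have hG : (0 : ℝ) < Nat.card (B → F) := by exact_mod_cast Nat.card_pos
    refine le_of_mul_le_mul_left ?_ hG
    have h7 := sub_le_iff_le_add.1 h1
    refine h7.trans (le_of_eq ?_)
    simp only [Nat.card_eq_fintype_card, hNd]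
    ring
  · have h2 : (Nat.card {I // ∃ t, y t = gout enc g x0 m1 R γ I ∧
        ∀ j, InC (fixz P γ) T (L t j) (Φ t j) I} : ℝ) ≤ N := by
      rw [hNd]
      exact_mod_cast Nat.card_le_card_of_injective (fun I : {I : B × W → F //
        ∃ t, y t = gout enc g x0 m1 R γ I ∧ ∀ j, InC (fixz P γ) T (L t j) (Φ t j) I} => I.1) Subtype.val_injective
    have h3 : (0 : ℝ) ≤ (∑ t, (Nat.card {I // ∀ j, InC (fixz P γ) T (L t j) (Φ t j) I} : ℝ)) / Fintype.card F := by
      positivity
    show (Nat.card {I // ∃ t, y t = gout enc g x0 m1 R γ I ∧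
        ∀ j, InC (fixz P γ) T (L t j) (Φ t j) I} : ℝ) - _ ≤ N
    linarith
  · rw [not_not] at hγ
    have h2 : ∀ p, n - 2 * a ≤ p → CB γ (Fin p × Fin m1) 3 E := by
      intro p hp
      refine Pool.Agent.Helper4.PH.CB.mono (hγ (Fin p × Fin m1)) ?_
      rw [hEd]
      have e1 : 3 + 2 = 5 := rfl
      rw [e1]
      refine Real.rpow_le_rpow_of_exponent_le hk ?_
      rw [Fintype.card_prod, Fintype.card_fin, Fintype.card_fin, neg_div, neg_div, neg_le_neg_iff]
      push_cast
      have : ((n - 2 * a : ℕ) : ℝ) ≤ p := by exact_mod_cast hp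
      gcongr
    have h3 := hB hE hE4 hm1 (fixz P γ) (det_fixz hP γ) g x0 (T := T) (N := n - 2 * a) hX ha hh hL he hq' hR r hr
      hrT hrh γ hE0 (by omega) h2 L Φ y hLq hLd
    have h4 := hN hE2 hD g x0 hx0 R
    have h5 : (Nat.card {I : B × W → F // ∃ t, y t = gout enc g x0 m1 R γ I ∧
        ∀ j, InC (fixz P γ) T (L t j) (Φ t j) I} : ℝ) ≤
        Nat.card {I : B × W → F // ¬ CF (fine g) x0 R (tab enc I)} +
          Nat.card {I : B × W → F // CF (fine g) x0 R (tab enc I) ∧ ∃ t, y t = gout enc g x0 m1 R γ I ∧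
            ∀ j, InC (fixz P γ) T (L t j) (Φ t j) I} := by
      have h6 : {I : B × W → F | ∃ t, y t = gout enc g x0 m1 R γ I ∧
          ∀ j, InC (fixz P γ) T (L t j) (Φ t j) I} ⊆
          {I | ¬ CF (fine g) x0 R (tab enc I)} ∪ {I | CF (fine g) x0 R (tab enc I) ∧
            ∃ t, y t = gout enc g x0 m1 R γ I ∧ ∀ j, InC (fixz P γ) T (L t j) (Φ t j) I} := by
        intro I hI
        by_cases hc : CF (fine g) x0 R (tab enc I)
        · exact Or.inr ⟨hc, hI⟩
        · exact Or.inl hc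
      have h7 := (Set.ncard_le_ncard h6 (Set.toFinite _)).trans (Set.ncard_union_le _ _)
      exact_mod_cast h7
    show (Nat.card {I // ∃ t, y t = gout enc g x0 m1 R γ I ∧
        ∀ j, InC (fixz P γ) T (L t j) (Φ t j) I} : ℝ) - _ ≤ _
    rw [← hη, ← hNd] at h3
    rw [← hNd] at h4
    linarith

end main

end Pool.Agent.Helper78.BT.G4
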