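import Pool.Agent.Helper66.BT.Orb
import Pool.Agent.Helper78.NK.Sum

/-!
# BT, G5: the letters of the rows `0, …, R` are different for most inputs
-/

set_option autoImplicit false

namespace Pool.Agent.Helper78.BT.G5

open Finset Pool.Agent.Helper19.NF Pool.Agent.Helper74.NW Pool.Agent.Helper96.BT Pool.Agent.Helper66.BT
open Pool.Agent.Helper74.NE (fine fine_apply)

theorem union_bound {X τ : Type} [Finite X] [Fintype τ] {p : X → Prop} {r : τ → X → Prop}
    (h : ∀ x, p x → ∃ t, r t x) : Nat.card {x // p x} ≤ ∑ t, Nat.card {x // r t x} := by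
  classical
  have := Fintype.ofFinite X
  simp only [Nat.card_eq_fintype_card, Fintype.card_subtype]
  have h1 : univ.filter p ⊆ univ.biUnion (fun t => univ.filter (r t)) := by
    intro x hx
    rw [mem_filter] at hx
    obtain ⟨t, h2⟩ := h x hx.2
    exact mem_biUnion.mpr ⟨t, mem_univ _, mem_filter.mpr ⟨mem_univ _, h2⟩⟩
  exact (card_le_card h1).trans card_biUnion_le

section net

variable {n D m : ℕ} [NeZero m] {F B W : Type} [Field F] [Fintype F] [AddCommGroup B] [AddCommGroup W]
  [Module F W] [Fintype W] [Fintype B] (enc : W →+ (Fin D × Fin m → B))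

/-- The change of a letter as a homomorphism. -/
noncomputable def lamHom (g : Fin D → Equiv.Perm (Fin n)) (v : Fin n × Fin m) : Ch n m F W →+ B :=
  AddMonoidHom.mk' (fun x => lam enc g x v) (by
    intro x y
    unfold lam
    rw [← sum_add_distrib]
    refine sum_congr rfl fun c _ => ?_
    rw [Pi.add_apply, cont_add, map_add, Pi.add_apply])

theorem lamHom_apply (g : Fin D → Equiv.Perm (Fin n)) (v : Fin n × Fin m) (x : Ch n m F W) :
    lamHom enc g v x = lam enc g x v := rfl

open Classical in
/-- Only the block of the letter `p` changes, its content becomes `w`. -/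
noncomputable def one (p : Fin n × Fin m) (w : W) : Ch n m F W := fun p' l => if p' = p ∧ l = w then 1 else 0

omit [NeZero m] in
theorem cont_one (p p' : Fin n × Fin m) (w : W) : cont (one (F := F) p w p') = if p' = p then w else 0 := by
  classical
  unfold cont one
  split_ifs with h
  · rw [sum_eq_single w]
    · rw [if_pos ⟨h, rfl⟩, one_smul]
    · intro l _ hl
      rw [if_neg fun h' => hl h'.2, zero_smul]
    · intro h'
      exact absurd (mem_univ _) h'
  · refine sum_eq_zero fun l _ => ?_
    rw [if_neg fun h' => h h'.1, zero_smul]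

open Classical in
theorem lam_one (g : Fin D → Equiv.Perm (Fin n)) (p v : Fin n × Fin m) (w : W) :
    lam enc g (one (F := F) p w) v = ∑ c ∈ univ.filter (fun c => fine g c v = p), enc w c := by
  unfold lam
  rw [sum_filter]
  refine sum_congr rfl fun c _ => ?_
  rw [cont_one]
  split_ifs
  · rfl
  · rw [map_zero]
    rfl

open Classical in
theorem card_dir (g : Fin D → Equiv.Perm (Fin n)) (p v : Fin n × Fin m) :
    (univ.filter (fun c : Fin D × Fin m => fine g c v = p)).card ≤ D := by
  have h : (univ.filter (fun c : Fin D × Fin m => fine g c v = p)) ⊆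
      (univ : Finset (Fin D)).image (fun s => (s, p.2 - v.2)) := by
    intro c hc
    rw [mem_filter, fine_apply] at hc
    rw [mem_image]
    refine ⟨c.1, mem_univ _, Prod.ext rfl ?_⟩
    rw [← hc.2]
    show v.2 + c.2 - v.2 = c.2
    rw [add_sub_cancel_left]
  refine (card_le_card h).trans (card_image_le.trans ?_)
  rw [card_univ, Fintype.card_fin]

/-- One letter can be moved arbitrarily, the other one does not move. -/
theorem exists_move (hE : Mds enc (2 * D)) (hD : 0 < D) (g : Fin D → Equiv.Perm (Fin n)) (u v : Fin n × Fin m)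
    (huv : u ≠ v) (y : B) :
    ∃ x : Ch n m F W, lam enc g x u = y ∧ lam enc g x v = 0 := by
  classical
  set c0 : Fin D × Fin m := (⟨0, hD⟩, 0) with hc0
  set p := fine g c0 u with hp
  set Au := univ.filter (fun c => fine g c u = p) with hAu
  set Av := univ.filter (fun c => fine g c v = p) with hAv
  obtain ⟨w, hw⟩ := hE (Au ∪ Av) (by
    refine (card_union_le _ _).trans ?_
    have h1 : Au.card ≤ D := card_dir (m := m) g p u
    have h2 : Av.card ≤ D := card_dir (m := m) g p v
    omega) (fun c => if c = c0 then y else 0)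
  refine ⟨one p w, ?_, ?_⟩
  · rw [lam_one, sum_eq_single c0]
    · rw [hw c0 (mem_union_left _ (mem_filter.2 ⟨mem_univ _, rfl⟩)), if_pos rfl]
    · intro c hc hcc
      rw [hw c (mem_union_left _ hc), if_neg hcc]
    · intro h
      exact (h (mem_filter.2 ⟨mem_univ c0, rfl⟩)).elim
  · rw [lam_one]
    refine sum_eq_zero fun c hc => ?_
    rw [hw c (mem_union_right _ hc), if_neg]
    intro hcc
    rw [mem_filter, hcc] at hc
    exact huv ((fine g c0).injective hc.2.symm)

theorem surj_sub (hE : Mds enc (2 * D)) (hD : 0 < D) (g : Fin D → Equiv.Perm (Fin n)) (u v : Fin n × Fin m)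
    (huv : u ≠ v) : Function.Surjective (⇑(lamHom (F := F) enc g u - lamHom (F := F) enc g v)) := by
  intro y
  obtain ⟨x, h1, h2⟩ := exists_move (F := F) enc hE hD g u v huv y
  refine ⟨x, ?_⟩
  rw [AddMonoidHom.sub_apply, lamHom_apply, lamHom_apply, h1, h2, sub_zero]

theorem surj_one (hE : Mds enc (2 * D)) (hD : 0 < D) (g : Fin D → Equiv.Perm (Fin n)) (u : Fin n × Fin m) :
    Function.Surjective (lamHom (F := F) enc g u) := by
  classical
  intro y
  set c0 : Fin D × Fin m := (⟨0, hD⟩, 0) with hc0
  set p := fine g c0 u with hp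
  obtain ⟨w, hw⟩ := hE (univ.filter (fun c => fine g c u = p)) (by
    have h1 := card_dir (m := m) g p u
    omega) (fun c => if c = c0 then y else 0)
  refine ⟨one p w, ?_⟩
  rw [lamHom_apply, lam_one, sum_eq_single c0]
  · rw [hw c0 (mem_filter.2 ⟨mem_univ _, rfl⟩), if_pos rfl]
  · intro c hc hcc
    rw [hw c hc, if_neg hcc]
  · intro h
    exact (h (mem_filter.2 ⟨mem_univ c0, rfl⟩)).elim

theorem card_eq {G H : Type} [AddCommGroup G] [Fintype G] [AddCommGroup H] [Fintype H] (f : G →+ H)
    (hf : Function.Surjective f) (y : H) : Nat.card {x // f x = y} * Fintype.card H = Nat.card G := by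
  have h := Pool.Agent.Helper78.NK.card_surj f hf (fun z => z = y)
  rw [Nat.card_eq_fintype_card (α := H)] at h
  rw [h]
  simp

/-- One step: from row `i` to row `i + 1`. -/
theorem step (hE : Mds enc (2 * D)) (hD : 0 < D) (g : Fin D → Equiv.Perm (Fin n)) (x0 : Fin n × Fin m → B)
    (i : ℕ) :
    (Nat.card {I : B × W → F // CF (fine g) x0 i (tab enc I) ∧ ¬ CF (fine g) x0 (i + 1) (tab enc I)} : ℝ) ≤
      (i + 2) * (n * m) ^ 2 / Fintype.card B * Nat.card (B × W → F) := by
  classical
  have hB : (0 : ℝ) < Fintype.card B := by exact_mod_cast Fintype.card_pos_iff.mpr ⟨(0 : B)⟩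
  have h := average2 enc g x0 i
    (fun I : B × W → F => CF (fine g) x0 i (tab enc I) ∧ ¬ CF (fine g) x0 (i + 1) (tab enc I))
    (fun _ => False) (fun I hI => hI.1) (fun I hI => hI.elim) 1 ((i + 2) * (n * m) ^ 2 / Fintype.card B)
    (by positivity) (fun I hI => ?_)
  · simpa using h
  · -- the count in one orbit
    have e0 : (Nat.card {x : Ch n m F W // (fun _ : B × W → F => False) (act enc g x0 i I x)} : ℝ) = 0 := by
      simp
    rw [e0, zero_div, zero_add]
    let U : Type := Fin n × Fin m
    let v : ℕ → U → B := fun j u => val (fine g) x0 (tab enc I) j u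
    let τ : Type := (Fin (i + 1) × U × U) ⊕ (U × U)
    let r : τ → Ch n m F W → Prop := fun t x =>
      match t with
      | Sum.inl (j, u, u') => lamHom enc g u x = v j u' - v (i + 1) u
      | Sum.inr (u, u') => u ≠ u' ∧ (lamHom (F := F) enc g u - lamHom (F := F) enc g u') x = v (i + 1) u' - v (i + 1) u
    have h1 : ∀ x : Ch n m F W, (CF (fine g) x0 i (tab enc (act enc g x0 i I x)) ∧
        ¬ CF (fine g) x0 (i + 1) (tab enc (act enc g x0 i I x))) → ∃ t, r t x := by
      rintro x ⟨hc, hn⟩
      unfold CF at hn
      push Not at hn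
      obtain ⟨j, j', u, u', hj, hj', he, hne⟩ := hn
      rcases Nat.lt_or_ge i j with hij | hij
      · have hj1 : j = i + 1 := by omega
        subst hj1
        rcases Nat.lt_or_ge i j' with hij' | hij'
        · have hj2 : j' = i + 1 := by omega
          subst hj2
          refine ⟨Sum.inr (u, u'), hne rfl, ?_⟩
          rw [val_act_succ enc hI, val_act_succ enc hI] at he
          show lam enc g x u - lam enc g x u' = _
          have he' : v (i + 1) u + lam enc g x u = v (i + 1) u' + lam enc g x u' := he
          rw [sub_eq_sub_iff_add_eq_add, add_comm, he', add_comm]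
        · refine ⟨Sum.inl (⟨j', by omega⟩, u, u'), ?_⟩
          rw [val_act_succ enc hI, val_act hI x hij'] at he
          show lam enc g x u = _
          have he' : v (i + 1) u + lam enc g x u = v j' u' := he
          rw [← he']
          show lam enc g x u = v (i + 1) u + lam enc g x u - v (i + 1) u
          rw [add_sub_cancel_left]
      · rcases Nat.lt_or_ge i j' with hij' | hij'
        · have hj2 : j' = i + 1 := by omega
          subst hj2
          refine ⟨Sum.inl (⟨j, by omega⟩, u', u), ?_⟩
          rw [val_act_succ enc hI, val_act hI x hij] at he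
          show lam enc g x u' = _
          have he' : v j u = v (i + 1) u' + lam enc g x u' := he
          show lam enc g x u' = v j u - v (i + 1) u'
          rw [he', add_sub_cancel_left]
        · exact absurd (hc j j' u u' hij hij' he) fun h => hne h.1 h.2
    have h2 := union_bound h1
    have h3 : ∀ t : τ, (Nat.card {x // r t x} : ℝ) ≤ Nat.card (Ch n m F W) / Fintype.card B := by
      intro t
      rw [le_div_iff₀ hB]
      rcases t with ⟨j, u, u'⟩ | ⟨u, u'⟩
      · have h4 := card_eq _ (surj_one (F := F) enc hE hD g u) (v j u' - v (i + 1) u)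
        exact_mod_cast h4.le
      · by_cases huv : u = u'
        · have h5 : Nat.card {x // r (Sum.inr (u, u')) x} = 0 := by
            rw [Nat.card_eq_zero]
            left
            exact ⟨fun x => x.2.1 huv⟩
          rw [h5]
          simp
        · have h4 := card_eq _ (surj_sub (F := F) enc hE hD g u u' huv) (v (i + 1) u' - v (i + 1) u)
          have h5 : Nat.card {x // r (Sum.inr (u, u')) x} = Nat.card {x //
              (lamHom (F := F) enc g u - lamHom (F := F) enc g u') x = v (i + 1) u' - v (i + 1) u} :=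
            Nat.card_congr (Equiv.subtypeEquivRight fun x => ⟨fun h => h.2, fun h => ⟨huv, h⟩⟩)
          rw [h5]
          exact_mod_cast h4.le
    have h6 : (Nat.card {x : Ch n m F W // CF (fine g) x0 i (tab enc (act enc g x0 i I x)) ∧
        ¬ CF (fine g) x0 (i + 1) (tab enc (act enc g x0 i I x))} : ℝ) ≤
        ∑ t : τ, (Nat.card {x // r t x} : ℝ) := by exact_mod_cast h2
    refine h6.trans ((sum_le_sum fun t _ => h3 t).trans ?_)
    rw [sum_const, card_univ, nsmul_eq_mul]
    have h7 : (Fintype.card τ : ℝ) = (i + 2) * (n * m) ^ 2 := by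
      show (Fintype.card ((Fin (i + 1) × U × U) ⊕ (U × U)) : ℝ) = _
      rw [Fintype.card_sum, Fintype.card_prod, Fintype.card_prod, Fintype.card_prod, Fintype.card_fin,
        Fintype.card_fin, Fintype.card_fin]
      push_cast
      ring
    rw [h7]
    apply le_of_eq
    ring

/-- G5. -/
theorem card_not_CF (hE : Mds enc (2 * D)) (hD : 0 < D) (g : Fin D → Equiv.Perm (Fin n)) (x0 : Fin n × Fin m → B)
    (hx0 : Function.Injective x0) (R : ℕ) :
    (Nat.card {I : B × W → F // ¬ CF (fine g) x0 R (tab enc I)} : ℝ) ≤
      ((R + 1) * (n * m)) ^ 2 / Fintype.card B * Nat.card (B × W → F) := by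
  classical
  have hB : (0 : ℝ) < Fintype.card B := by exact_mod_cast Fintype.card_pos_iff.mpr ⟨(0 : B)⟩
  have h1 : ∀ I : B × W → F, ¬ CF (fine g) x0 R (tab enc I) → ∃ i : Fin R,
      CF (fine g) x0 i (tab enc I) ∧ ¬ CF (fine g) x0 (i + 1) (tab enc I) := by
    intro I hI
    by_contra hno
    push Not at hno
    apply hI
    have h2 : ∀ i ≤ R, CF (fine g) x0 i (tab enc I) := by
      intro i
      induction i with
      | zero =>
        intro _ j j' u u' hj hj' he
        have e1 : j = 0 := by omega
        have e2 : j' = 0 := by omega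
        subst e1
        subst e2
        exact ⟨rfl, hx0 he⟩
      | succ i ih =>
        intro hi
        exact hno ⟨i, by omega⟩ (ih (by omega))
    exact h2 R le_rfl
  have h2 := union_bound h1
  have h3 : (Nat.card {I : B × W → F // ¬ CF (fine g) x0 R (tab enc I)} : ℝ) ≤
      ∑ i : Fin R, (Nat.card {I : B × W → F // CF (fine g) x0 i (tab enc I) ∧
        ¬ CF (fine g) x0 (i + 1) (tab enc I)} : ℝ) := by exact_mod_cast h2
  refine h3.trans ((sum_le_sum fun (i : Fin R) _ => step enc hE hD g x0 (i : ℕ)).trans ?_)
  have h4 : ∑ i : Fin R, (((i : ℕ) : ℝ) + 2) * (n * m) ^ 2 / Fintype.card B * Nat.card (B × W → F) =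
      (∑ i ∈ range R, ((i : ℝ) + 2)) * ((n * m) ^ 2 / Fintype.card B * Nat.card (B × W → F)) := by
    rw [Finset.sum_range, sum_mul]
    refine sum_congr rfl fun i _ => ?_
    ring
  rw [h4]
  have h5 : ∑ i ∈ range R, ((i : ℝ) + 2) ≤ (R + 1) ^ 2 := by
    clear h3 h4 h2 h1
    induction R with
    | zero => simp
    | succ R ih =>
      rw [sum_range_succ]
      push_cast
      nlinarith
  have h6 : (0 : ℝ) ≤ (n * m) ^ 2 / Fintype.card B * Nat.card (B × W → F) := by positivity
  refine (mul_le_mul_of_nonneg_right h5 h6).trans (le_of_eq ?_)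
  ring

end net

end Pool.Agent.Helper78.BT.G5
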