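import Pool.Agent.Helper96.BT.Defs

/-!
# BT, piece K1: random colours of the segments

`c j` is the set of the symbols queried in the segment number `j`. If every `x ∈ X` is in at most `w` of the sets
`c j`, and every `c j` contains at most `μ` elements of `X`, then for a random set `A` of segments the number of the
`x ∈ X` which are in no `c j`, `j ∈ A`, has mean at least `#X / 2 ^ w` and variance at most `q μ ^ 2 / 2`. Chebyshev.
-/

set_option autoImplicit false

namespace Pool.Agent.Helper78.BT.K1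

open Finset

section

variable {α : Type} [DecidableEq α] {q w μ : ℕ} (c : Fin q → Finset α)

/-- the number of the sets `A` which do not meet `U` -/
theorem card_avoid (U : Finset (Fin q)) :
    ((univ.filter fun A : Finset (Fin q) => ∀ s ∈ U, s ∉ A).card : ℝ) = 2 ^ q * (1 / 2) ^ U.card := by
  have h1 : (univ.filter fun A : Finset (Fin q) => ∀ s ∈ U, s ∉ A) = Uᶜ.powerset := by
    ext A
    rw [mem_filter, mem_powerset]
    constructor
    · intro h s hs
      rw [mem_compl]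
      exact fun hu => h.2 s hu hs
    · intro h
      exact ⟨mem_univ _, fun s hs hA => (mem_compl.1 (h hA)) hs⟩
  rw [h1, card_powerset, card_compl, Fintype.card_fin]
  have h2 : U.card ≤ q := by simpa using card_le_univ U
  push_cast
  have h3 : (2 : ℝ) ^ (q - U.card) * 2 ^ U.card = 2 ^ q := by
    rw [← pow_add, Nat.sub_add_cancel h2]
  rw [← h3, mul_assoc, ← mul_pow]
  norm_num

/-- the segments which query `x` -/
def seg (x : α) : Finset (Fin q) := univ.filter fun j => x ∈ c j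

theorem mem_seg {x : α} {j : Fin q} : j ∈ seg c x ↔ x ∈ c j := by
  simp [seg]

/-- the indicator of `x` being unread in `A` -/
noncomputable def ind (x : α) (A : Finset (Fin q)) : ℝ := if ∀ s ∈ seg c x, s ∉ A then 1 else 0

theorem sum_ind (x : α) : ∑ A : Finset (Fin q), ind c x A = 2 ^ q * (1 / 2) ^ (seg c x).card := by
  unfold ind
  rw [Finset.sum_boole, card_avoid]

theorem sum_ind_mul (x y : α) : ∑ A : Finset (Fin q), ind c x A * ind c y A
    = 2 ^ q * (1 / 2) ^ (seg c x ∪ seg c y).card := by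
  unfold ind
  rw [← card_avoid, ← Finset.sum_boole]
  refine Finset.sum_congr rfl fun A _ => ?_
  by_cases hi : ∀ s ∈ seg c x, s ∉ A
  · by_cases hj : ∀ s ∈ seg c y, s ∉ A
    · have : ∀ s ∈ seg c x ∪ seg c y, s ∉ A := by
        intro s hs
        rcases mem_union.1 hs with h | h
        · exact hi s h
        · exact hj s h
      rw [if_pos hi, if_pos hj, if_pos this, one_mul]
    · have : ¬ ∀ s ∈ seg c x ∪ seg c y, s ∉ A := fun h => hj fun s hs => h s (mem_union_right _ hs)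
      rw [if_neg hj, if_neg this, mul_zero]
  · have : ¬ ∀ s ∈ seg c x ∪ seg c y, s ∉ A := fun h => hi fun s hs => h s (mem_union_left _ hs)
    rw [if_neg hi, if_neg this, zero_mul]

/-- the number of the pairs with a common segment -/
theorem card_pairs_le (X : Finset α) (hμ : ∀ j, (X ∩ c j).card ≤ μ) :
    ((X ×ˢ X).filter fun p => ¬ Disjoint (seg c p.1) (seg c p.2)).card ≤ q * μ ^ 2 := by
  have h : ((X ×ˢ X).filter fun p => ¬ Disjoint (seg c p.1) (seg c p.2))
      ⊆ (univ : Finset (Fin q)).biUnion fun s => (X ∩ c s) ×ˢ (X ∩ c s) := by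
    intro p hp
    rw [mem_filter, mem_product] at hp
    obtain ⟨s, hs1, hs2⟩ := Finset.not_disjoint_iff.1 hp.2
    rw [mem_biUnion]
    refine ⟨s, mem_univ _, ?_⟩
    rw [mem_product, mem_inter, mem_inter]
    exact ⟨⟨hp.1.1, (mem_seg c).1 hs1⟩, hp.1.2, (mem_seg c).1 hs2⟩
  refine (card_le_card h).trans (card_biUnion_le.trans ?_)
  have h2 : ∀ s ∈ (univ : Finset (Fin q)), ((X ∩ c s) ×ˢ (X ∩ c s)).card ≤ μ ^ 2 := by
    intro s _
    rw [card_product, sq]
    exact Nat.mul_le_mul (hμ s) (hμ s)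
  refine (Finset.sum_le_sum h2).trans ?_
  rw [sum_const, smul_eq_mul, card_univ, Fintype.card_fin]

/-- the second moment -/
theorem second_moment (X : Finset α) (hμ : ∀ j, (X ∩ c j).card ≤ μ) :
    ∑ A : Finset (Fin q), (∑ x ∈ X, (ind c x A - (1 / 2) ^ (seg c x).card)) ^ 2
      ≤ 2 ^ q / 2 * (q * μ ^ 2) := by
  have h1 : ∀ A : Finset (Fin q), (∑ x ∈ X, (ind c x A - (1 / 2) ^ (seg c x).card)) ^ 2
      = ∑ p ∈ X ×ˢ X, (ind c p.1 A * ind c p.2 A
        - (1 / 2) ^ (seg c p.1).card * ind c p.2 A - (1 / 2) ^ (seg c p.2).card * ind c p.1 A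
        + (1 / 2) ^ (seg c p.1).card * (1 / 2) ^ (seg c p.2).card) := by
    intro A
    rw [sq, Finset.sum_mul_sum, ← Finset.sum_product']
    refine Finset.sum_congr rfl fun p _ => ?_
    ring
  simp only [h1]
  rw [Finset.sum_comm]
  have h2 : ∀ p ∈ X ×ˢ X, ∑ A : Finset (Fin q), (ind c p.1 A * ind c p.2 A
        - (1 / 2) ^ (seg c p.1).card * ind c p.2 A - (1 / 2) ^ (seg c p.2).card * ind c p.1 A
        + (1 / 2) ^ (seg c p.1).card * (1 / 2) ^ (seg c p.2).card)
      ≤ if Disjoint (seg c p.1) (seg c p.2) then 0 else 2 ^ q / 2 := by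
    intro p _
    rw [Finset.sum_add_distrib, Finset.sum_sub_distrib, Finset.sum_sub_distrib,
      sum_ind_mul, ← Finset.mul_sum, ← Finset.mul_sum, sum_ind, sum_ind, Finset.sum_const]
    have hc : ((univ : Finset (Finset (Fin q))).card : ℝ) = 2 ^ q := by
      rw [card_univ, Fintype.card_finset, Fintype.card_fin]
      push_cast
      rfl
    rw [nsmul_eq_mul, hc]
    split_ifs with hdis
    · rw [card_union_of_disjoint hdis, pow_add]
      apply le_of_eq
      ring
    · have hp : (0 : ℝ) ≤ (1 / 2) ^ (seg c p.1).card * (1 / 2) ^ (seg c p.2).card := by positivity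
      have hne : 1 ≤ (seg c p.1 ∪ seg c p.2).card := by
        rw [Nat.one_le_iff_ne_zero, Finset.card_ne_zero]
        obtain ⟨s, hs1, _⟩ := Finset.not_disjoint_iff.1 hdis
        exact ⟨s, mem_union_left _ hs1⟩
      have hq : ((1 / 2 : ℝ)) ^ (seg c p.1 ∪ seg c p.2).card ≤ 1 / 2 := by
        calc ((1 / 2 : ℝ)) ^ (seg c p.1 ∪ seg c p.2).card ≤ (1 / 2) ^ 1 :=
              pow_le_pow_of_le_one (by norm_num) (by norm_num) hne
          _ = 1 / 2 := by norm_num
      have h3 : (0 : ℝ) < 2 ^ q := by positivity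
      nlinarith [mul_nonneg h3.le hp, mul_le_mul_of_nonneg_left hq h3.le]
  refine (Finset.sum_le_sum h2).trans ?_
  rw [Finset.sum_ite, Finset.sum_const_zero, zero_add, Finset.sum_const, nsmul_eq_mul, mul_comm]
  refine mul_le_mul_of_nonneg_left ?_ (by positivity)
  exact_mod_cast card_pairs_le c X hμ

end

/-- K1: random colours. -/
theorem colours {α : Type} [DecidableEq α] {q w μ : ℕ} (c : Fin q → Finset α) (X : Finset α)
    (hw : ∀ x ∈ X, (univ.filter (fun j => x ∈ c j)).card ≤ w) (hμ : ∀ j, (X ∩ c j).card ≤ μ) :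
    (Nat.card {A : Finset (Fin q) // (X.filter (fun x => ∀ j ∈ A, x ∉ c j)).card * (2 * 2 ^ w) < X.card} : ℝ) *
      (X.card : ℝ) ^ 2 ≤ 2 * q * μ ^ 2 * 4 ^ w * 2 ^ q := by
  classical
  rw [Nat.card_eq_fintype_card, Fintype.card_subtype]
  have h1 : ∀ A ∈ (univ.filter fun A : Finset (Fin q) =>
      (X.filter (fun x => ∀ j ∈ A, x ∉ c j)).card * (2 * 2 ^ w) < X.card),
      (X.card : ℝ) ^ 2 ≤ 4 * 4 ^ w * (∑ x ∈ X, (ind c x A - (1 / 2) ^ (seg c x).card)) ^ 2 := by
    intro A hA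
    rw [mem_filter] at hA
    have h2 : ∑ x ∈ X, ind c x A = ((X.filter (fun x => ∀ j ∈ A, x ∉ c j)).card : ℝ) := by
      unfold ind
      rw [Finset.sum_boole]
      congr 2
      refine Finset.filter_congr fun x _ => ?_
      constructor
      · intro h j hj hx
        exact h j ((mem_seg c).2 hx) hj
      · intro h s hs hsA
        exact h s hsA ((mem_seg c).1 hs)
    have h3 : (X.card : ℝ) * (1 / 2) ^ w ≤ ∑ x ∈ X, ((1 / 2 : ℝ)) ^ (seg c x).card := by
      have : ∑ _x ∈ X, ((1 / 2 : ℝ)) ^ w ≤ ∑ x ∈ X, ((1 / 2 : ℝ)) ^ (seg c x).card :=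
        Finset.sum_le_sum fun x hx =>
          pow_le_pow_of_le_one (by norm_num) (by norm_num) (hw x hx)
      rwa [Finset.sum_const, nsmul_eq_mul] at this
    have h4 : ((X.filter (fun x => ∀ j ∈ A, x ∉ c j)).card : ℝ) * (2 * 2 ^ w) < X.card := by
      exact_mod_cast hA.2
    have hpos : (0 : ℝ) < 2 ^ w := by positivity
    have h5 : (1 / 2 : ℝ) ^ w * 2 ^ w = 1 := by rw [← mul_pow]; norm_num
    have h6 : (X.card : ℝ) ≤ 2 * 2 ^ w * (∑ x ∈ X, ((1 / 2) ^ (seg c x).card - ind c x A)) := by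
      rw [Finset.sum_sub_distrib, h2]
      have h7 : (X.card : ℝ) = 2 ^ w * (X.card * (1 / 2) ^ w) := by
        calc (X.card : ℝ) = X.card * ((1 / 2) ^ w * 2 ^ w) := by rw [h5, mul_one]
          _ = _ := by ring
      have h8 : (2 : ℝ) ^ w * (X.card * (1 / 2) ^ w)
          ≤ 2 ^ w * ∑ x ∈ X, ((1 / 2 : ℝ)) ^ (seg c x).card :=
        mul_le_mul_of_nonneg_left h3 hpos.le
      rw [← h7] at h8
      nlinarith
    have h10 : (∑ x ∈ X, (ind c x A - (1 / 2) ^ (seg c x).card)) ^ 2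
        = (∑ x ∈ X, ((1 / 2) ^ (seg c x).card - ind c x A)) ^ 2 := by
      rw [← neg_sq, ← Finset.sum_neg_distrib]
      simp only [neg_sub]
    rw [h10]
    have h11 : (4 : ℝ) * 4 ^ w = (2 * 2 ^ w) ^ 2 := by
      rw [mul_pow, ← pow_mul, mul_comm w 2, pow_mul]
      norm_num
    rw [h11, ← mul_pow]
    exact pow_le_pow_left₀ (by positivity) h6 2
  calc ((univ.filter fun A : Finset (Fin q) =>
        (X.filter (fun x => ∀ j ∈ A, x ∉ c j)).card * (2 * 2 ^ w) < X.card).card : ℝ) * (X.card : ℝ) ^ 2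
      = ∑ A ∈ (univ.filter fun A : Finset (Fin q) =>
        (X.filter (fun x => ∀ j ∈ A, x ∉ c j)).card * (2 * 2 ^ w) < X.card), (X.card : ℝ) ^ 2 := by
        rw [Finset.sum_const, nsmul_eq_mul]
    _ ≤ ∑ A ∈ (univ.filter fun A : Finset (Fin q) =>
        (X.filter (fun x => ∀ j ∈ A, x ∉ c j)).card * (2 * 2 ^ w) < X.card),
        4 * 4 ^ w * (∑ x ∈ X, (ind c x A - (1 / 2) ^ (seg c x).card)) ^ 2 := Finset.sum_le_sum h1
    _ ≤ ∑ A : Finset (Fin q), 4 * 4 ^ w * (∑ x ∈ X, (ind c x A - (1 / 2) ^ (seg c x).card)) ^ 2 :=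
        Finset.sum_le_sum_of_subset_of_nonneg (filter_subset _ _) fun _ _ _ => by positivity
    _ = 4 * 4 ^ w * ∑ A : Finset (Fin q), (∑ x ∈ X, (ind c x A - (1 / 2) ^ (seg c x).card)) ^ 2 := by
        rw [Finset.mul_sum]
    _ ≤ 4 * 4 ^ w * (2 ^ q / 2 * (q * μ ^ 2)) :=
        mul_le_mul_of_nonneg_left (second_moment c X hμ) (by positivity)
    _ = 2 * q * μ ^ 2 * 4 ^ w * 2 ^ q := by ring

end Pool.Agent.Helper78.BT.K1
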